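import Pool.Agent.Helper45.CF.GoalsA
import Pool.Agent.Helper39.Uct.Main

/-!
# Project CF (MP_d97caa_an), packet GEX: the mapping cone algebra
-/

open scoped ComplexOrder ZeroAtInfty Topology ComplexConjugate
open TopologicalSpace Filter

namespace Pool.Agent.Helper77.CF.GEX

open Pool.Agent.Helper45.CF Pool.Agent.Helper34.CAR Pool.Agent.Helper39.CR Pool.Agent.Helper39.Uct

noncomputable section

/-- An extension of a separable algebra by a separable algebra is separable. -/
theorem sep_ext {G R : Type} [NonUnitalCStarAlgebra G] [NonUnitalCStarAlgebra R]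
    [SeparableSpace R] (q : G →⋆ₙₐ[ℂ] R) (hJ : IsSeparable {x : G | q x = 0}) :
    SeparableSpace G := by
  have hcl : IsClosed (Set.range q) := t_RC G R q
  have hcont : Continuous q := continuous_hom q
  let S : Submodule ℂ R := LinearMap.range (q : G →ₗ[ℂ] R)
  have hS : (S : Set R) = Set.range q := by
    ext y
    rfl
  have hScl : IsClosed (S : Set R) := by rw [hS]; exact hcl
  have : CompleteSpace S := hScl.completeSpace_coe
  let q' : G →L[ℂ] S :=
    { toFun := fun x => ⟨q x, x, rfl⟩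
      map_add' := fun x y => Subtype.ext (map_add q x y)
      map_smul' := fun c x => Subtype.ext (map_smul q c x)
      cont := Continuous.subtype_mk hcont _ }
  have hq' : Function.Surjective q' := by
    rintro ⟨y, x, rfl⟩
    exact ⟨x, rfl⟩
  obtain ⟨C, hC, hpre⟩ := q'.exists_preimage_norm_le hq'
  have hR2 : SecondCountableTopology R := UniformSpace.secondCountable_of_separable R
  have hSs : SeparableSpace S := inferInstance
  obtain ⟨D, hD, hDd⟩ := exists_countable_dense S
  obtain ⟨K0, hK0, hK0d⟩ := hJ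
  let f : S → G := Function.surjInv hq'
  refine ⟨⟨Set.image2 (fun a b => a + b) (f '' D) K0, (hD.image f).image2 hK0 _, ?_⟩⟩
  rw [Metric.dense_iff]
  intro x r hr
  have hδ : 0 < r / (2 * (C + 1)) := by positivity
  obtain ⟨d, hdD, hd⟩ : ∃ d ∈ D, dist (q' x) d < r / (2 * (C + 1)) := by
    have h1 := Metric.dense_iff.mp hDd (q' x) _ hδ
    obtain ⟨d, hd1, hd2⟩ := h1
    exact ⟨d, hd2, by rw [dist_comm]; exact hd1⟩
  obtain ⟨y, hy1, hy2⟩ := hpre (q' x - d)
  have hz : x - f d - y ∈ {x : G | q x = 0} := by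
    have h1 : q' (x - f d - y) = 0 := by
      rw [map_sub, map_sub, hy1, Function.surjInv_eq hq']
      abel
    exact congrArg Subtype.val h1
  obtain ⟨z, hz1, hz2⟩ := Metric.mem_closure_iff.mp (hK0d hz) (r / 2) (by positivity)
  refine ⟨f d + z, ?_, f d, ⟨d, hdD, rfl⟩, z, hz1, rfl⟩
  rw [Metric.mem_ball, dist_comm, dist_eq_norm]
  have h1 : x - (f d + z) = y + (x - f d - y - z) := by abel
  rw [h1]
  have h2 : ‖y‖ ≤ C * (r / (2 * (C + 1))) := by
    refine hy2.trans ?_
    rw [← dist_eq_norm]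
    exact mul_le_mul_of_nonneg_left hd.le hC.le
  have h3 : C * (r / (2 * (C + 1))) < r / 2 := by
    rw [mul_div_assoc', div_lt_div_iff₀ (by positivity) (by positivity)]
    nlinarith
  rw [dist_eq_norm] at hz2
  calc ‖y + (x - f d - y - z)‖ ≤ ‖y‖ + ‖x - f d - y - z‖ := norm_add_le _ _
    _ < r := by linarith

/-- The mapping cone algebra. -/
def G0 {M Q V W : Type} [CStarAlgebra M] [CStarAlgebra Q] [CStarAlgebra V] [CStarAlgebra W]
    (π : M →⋆ₐ[ℂ] Q) (τ : V →⋆ₐ[ℂ] Q) (c : W →⋆ₐ[ℂ] V) :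
    StarSubalgebra ℂ (M × C(unitInterval, V)) where
  carrier := {x | π x.1 = τ (x.2 1) ∧ ∃ w, x.2 0 = c w}
  mul_mem' := by
    rintro x y ⟨hx, w, hw⟩ ⟨hy, w', hw'⟩
    refine ⟨?_, w * w', ?_⟩
    · rw [Prod.fst_mul, Prod.snd_mul, ContinuousMap.mul_apply, map_mul, map_mul, hx, hy]
    · rw [Prod.snd_mul, ContinuousMap.mul_apply, map_mul, hw, hw']
  add_mem' := by
    rintro x y ⟨hx, w, hw⟩ ⟨hy, w', hw'⟩
    refine ⟨?_, w + w', ?_⟩
    · rw [Prod.fst_add, Prod.snd_add, ContinuousMap.add_apply, map_add, map_add, hx, hy]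
    · rw [Prod.snd_add, ContinuousMap.add_apply, map_add, hw, hw']
  algebraMap_mem' := by
    intro r
    refine ⟨?_, algebraMap ℂ W r, ?_⟩
    · change π (algebraMap ℂ M r) = τ (algebraMap ℂ V r)
      rw [AlgHomClass.commutes, AlgHomClass.commutes]
    · change algebraMap ℂ V r = _
      rw [AlgHomClass.commutes]
  star_mem' := by
    rintro x ⟨hx, w, hw⟩
    refine ⟨?_, star w, ?_⟩
    · rw [Prod.fst_star, Prod.snd_star, ContinuousMap.star_apply, map_star, map_star, hx]
    · rw [Prod.snd_star, ContinuousMap.star_apply, map_star, hw]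

theorem mem_G0 {M Q V W : Type} [CStarAlgebra M] [CStarAlgebra Q] [CStarAlgebra V] [CStarAlgebra W]
    (π : M →⋆ₐ[ℂ] Q) (τ : V →⋆ₐ[ℂ] Q) (c : W →⋆ₐ[ℂ] V) (x : M × C(unitInterval, V)) :
    x ∈ G0 π τ c ↔ π x.1 = τ (x.2 1) ∧ ∃ w, x.2 0 = c w := Iff.rfl

theorem closed_G0 {M Q V W : Type} [CStarAlgebra M] [CStarAlgebra Q] [CStarAlgebra V]
    [CStarAlgebra W] (π : M →⋆ₐ[ℂ] Q) (τ : V →⋆ₐ[ℂ] Q) (c : W →⋆ₐ[ℂ] V) :
    IsClosed (G0 π τ c : Set (M × C(unitInterval, V))) := by
  have h1 : (G0 π τ c : Set (M × C(unitInterval, V))) =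
      {x | π x.1 = τ (x.2 1)} ∩ (fun x : M × C(unitInterval, V) => x.2 0) ⁻¹' (Set.range c) := by
    ext x
    rw [SetLike.mem_coe, mem_G0, Set.mem_inter_iff, Set.mem_ofPred_eq, Set.mem_preimage,
      Set.mem_range]
    constructor
    · rintro ⟨h, w, hw⟩
      exact ⟨h, w, hw.symm⟩
    · rintro ⟨h, w, hw⟩
      exact ⟨h, w, hw.symm⟩
  rw [h1]
  have hπ : Continuous π := continuous_hom π.toNonUnitalStarAlgHom
  have hτ : Continuous τ := continuous_hom τ.toNonUnitalStarAlgHom
  have hc : IsClosed (Set.range c) := t_RC W V c.toNonUnitalStarAlgHom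
  refine IsClosed.inter (isClosed_eq (hπ.comp continuous_fst)
    (hτ.comp ((continuous_eval_const (1 : unitInterval)).comp continuous_snd))) ?_
  exact hc.preimage ((continuous_eval_const (0 : unitInterval)).comp continuous_snd)

theorem t : S_GEX := by
  intro K M Q V W _ _ _ _ _ _ _ k π τ c hk
  have hcl : IsClosed (G0 π τ c : Set (M × C(unitInterval, V))) := closed_G0 π τ c
  have hfact : Fact (IsClosed (G0 π τ c : Set (M × C(unitInterval, V)))) := ⟨hcl⟩
  let inst : CStarAlgebra (G0 π τ c) := inferInstance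
  refine ⟨G0 π τ c, inst, (G0 π τ c).subtype, ?_, Subtype.val_injective, ?_⟩
  · let q : G0 π τ c →⋆ₙₐ[ℂ] C(unitInterval, V) :=
      { toFun := fun x => x.1.2
        map_smul' := fun _ _ => rfl
        map_zero' := rfl
        map_add' := fun _ _ => rfl
        map_mul' := fun _ _ => rfl
        map_star' := fun _ => rfl }
    refine sep_ext q ?_
    have hmem : ∀ x : K, (k x, (0 : C(unitInterval, V))) ∈ G0 π τ c := by
      intro x
      refine ⟨?_, 0, ?_⟩
      · change π (k x) = τ 0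
        rw [map_zero, hk]
        exact ⟨x, rfl⟩
      · change (0 : V) = c 0
        rw [map_zero]
    have hcont : Continuous fun x : K => (⟨(k x, 0), hmem x⟩ : G0 π τ c) :=
      ((continuous_hom k).prodMk continuous_const).subtype_mk _
    have heq : {x : G0 π τ c | q x = 0} = Set.range fun x : K => (⟨(k x, 0), hmem x⟩ : G0 π τ c) := by
      ext x
      constructor
      · intro hx
        have h2 : x.1.2 = 0 := hx
        have h3 : π x.1.1 = 0 := by
          have h4 : π x.1.1 = τ (x.1.2 1) := x.2.1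
          rw [h4, h2, ContinuousMap.zero_apply, map_zero]
        obtain ⟨y, hy⟩ := (hk x.1.1).mp h3
        exact ⟨y, Subtype.ext (Prod.ext hy h2.symm)⟩
      · rintro ⟨y, rfl⟩
        rfl
    rw [heq]
    exact isSeparable_range hcont
  · intro x
    rw [← mem_G0]
    constructor
    · rintro ⟨y, rfl⟩
      exact y.2
    · intro hx
      exact ⟨⟨x, hx⟩, rfl⟩

end

end Pool.Agent.Helper77.CF.GEX
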