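import Pool.Agent.Helper77.CF.KeyA

open MeasureTheory Complex Filter
open scoped ContDiff ComplexConjugate Topology

noncomputable section
namespace Pool.Agent.Helper77.CF

open CF55

theorem hnorm (σ w : ℂ) : ‖cexp (I * ((σ * w).re : ℂ))‖ = 1 := by
  rw [mul_comm, Complex.norm_exp_ofReal_mul_I]

theorem logpow {R : ℝ} (hR : 2 ≤ R) (k : ℕ) :
    0 < Real.log R ∧ 1 ≤ 2 ^ k * Real.log R ^ k := by
  have h1 : Real.log 2 ≤ Real.log R := Real.log_le_log (by norm_num) hR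
  have h2 : (1:ℝ) / 2 < Real.log 2 := by have := Real.log_two_gt_d9; linarith
  refine ⟨by linarith, ?_⟩
  rw [← mul_pow]
  exact one_le_pow₀ (by linarith)

/-- the final step -/
theorem fin (m : ℕ) (hm : m = 1 ∨ m = 2) (hG : G_GAUSS) {A : ℂ → ℂ} {M : ℝ}
    (hA : AEStronglyMeasurable A volume) (hM : ∀ σ, ‖A σ‖ ≤ M)
    (W : Z → ℝ) (h : Z → ℂ) (hW : ∀ z, 0 ≤ W z) (hWi : Integrable W) (hh : Measurable h)
    (c K : ℝ) (hc : 0 < c)
    (hD : ∀ σ : ℂ, 1 ≤ ‖σ‖ → ‖A σ - (c / ‖σ‖ ^ m : ℝ) *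
      ∫ z, cexp (I * ((σ * h z).re : ℂ)) * W z‖ ≤ K / ‖σ‖ ^ 4)
    (C : ℝ) (k : ℕ) (hT : ∀ R : ℝ, 2 ≤ R → ‖∫ σ : ℂ,
      ((‖σ‖ ^ m * Real.exp (-(1 / (4 * R) * ‖σ‖ ^ 2)) : ℝ) : ℂ) * A σ‖ ≤ C * Real.log R ^ k) :
    ∃ (C' : ℝ) (k' : ℕ), ∀ R : ℝ, 2 ≤ R →
      ∫ z, W z * Real.exp (-(R * ‖h z‖ ^ 2)) ≤ C' * Real.log R ^ k' / R := by
  have hM0 : 0 ≤ M := (norm_nonneg _).trans (hM 0)
  set ν : ℂ → ℂ := fun σ => ∫ z, cexp (I * ((σ * h z).re : ℂ)) * W z with hν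
  set MW : ℝ := ∫ z, W z with hMW
  have hMW0 : 0 ≤ MW := integral_nonneg hW
  have hνb : ∀ σ, ‖ν σ‖ ≤ MW := by
    intro σ
    refine (norm_integral_le_integral_norm _).trans (le_of_eq ?_)
    refine integral_congr_ae (ae_of_all _ fun z => ?_)
    simp only
    rw [norm_mul, hnorm, one_mul, Complex.norm_real, Real.norm_of_nonneg (hW z)]
  have hνm : AEStronglyMeasurable ν volume := by
    have m2 : Measurable (fun p : ℂ × Z => cexp (I * ((p.1 * h p.2).re : ℂ))) := by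
      fun_prop
    have m3 : AEStronglyMeasurable (fun p : ℂ × Z => ((W p.2 : ℝ) : ℂ))
        ((volume : Measure ℂ).prod (volume : Measure Z)) :=
      Complex.continuous_ofReal.comp_aestronglyMeasurable hWi.aestronglyMeasurable.comp_snd
    exact (m2.aestronglyMeasurable.mul m3).integral_prod_right'
  set D : ℂ → ℂ := fun σ => A σ - (c / ‖σ‖ ^ m : ℝ) * ν σ with hDd
  have hDm : AEStronglyMeasurable D volume := by
    refine hA.sub (AEStronglyMeasurable.mul ?_ hνm)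
    have : Measurable (fun σ : ℂ => ((c / ‖σ‖ ^ m : ℝ) : ℂ)) := by fun_prop
    exact this.aestronglyMeasurable
  set K3 : ℝ := 2 * (|K| + M + c * MW) with hK3
  have hDb : ∀ σ : ℂ, ‖σ‖ ^ m * ‖D σ‖ ≤ K3 / (1 + ‖σ‖ ^ 2) := by
    intro σ
    rw [le_div_iff₀ (by positivity)]
    by_cases hσ : 1 ≤ ‖σ‖
    · have h1 := hD σ hσ
      have h2 : K / ‖σ‖ ^ 4 ≤ |K| / ‖σ‖ ^ 4 := by
        apply div_le_div_of_nonneg_right (le_abs_self K); positivity
      have h3 : ‖σ‖ ^ m * ‖D σ‖ ≤ ‖σ‖ ^ 2 * (|K| / ‖σ‖ ^ 4) := by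
        apply mul_le_mul _ (h1.trans h2) (norm_nonneg _) (by positivity)
        rcases hm with rfl | rfl
        · nlinarith
        · exact le_rfl
      have h4 : ‖σ‖ ^ 2 * (|K| / ‖σ‖ ^ 4) * (1 + ‖σ‖ ^ 2) ≤ 2 * |K| := by
        have h0 : 0 < ‖σ‖ := by linarith
        have : ‖σ‖ ^ 2 * (|K| / ‖σ‖ ^ 4) * (1 + ‖σ‖ ^ 2) = |K| * ((1 + ‖σ‖ ^ 2) / ‖σ‖ ^ 2) := by
          field_simp
        rw [this]
        have h5 : (1 + ‖σ‖ ^ 2) / ‖σ‖ ^ 2 ≤ 2 := by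
          rw [div_le_iff₀ (by positivity)]; nlinarith
        nlinarith [abs_nonneg K]
      have h6 : ‖σ‖ ^ m * ‖D σ‖ * (1 + ‖σ‖ ^ 2) ≤
          ‖σ‖ ^ 2 * (|K| / ‖σ‖ ^ 4) * (1 + ‖σ‖ ^ 2) :=
        mul_le_mul_of_nonneg_right h3 (by positivity)
      have : 0 ≤ c * MW := by positivity
      rw [hK3]
      linarith
    · push Not at hσ
      have h1 : ‖σ‖ ^ m ≤ 1 := pow_le_one₀ (norm_nonneg _) hσ.le
      have h2 : ‖D σ‖ ≤ ‖A σ‖ + c / ‖σ‖ ^ m * ‖ν σ‖ := by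
        refine (norm_sub_le _ _).trans ?_
        rw [norm_mul, Complex.norm_real, Real.norm_of_nonneg (by positivity)]
      have h3 : ‖σ‖ ^ m * (c / ‖σ‖ ^ m) ≤ c := by
        by_cases h0 : ‖σ‖ ^ m = 0
        · rw [h0]; simp [hc.le]
        · rw [mul_div_cancel₀ _ h0]
      have h4 : ‖σ‖ ^ m * ‖D σ‖ ≤ M + c * MW := by
        calc ‖σ‖ ^ m * ‖D σ‖ ≤ ‖σ‖ ^ m * (‖A σ‖ + c / ‖σ‖ ^ m * ‖ν σ‖) :=
              mul_le_mul_of_nonneg_left h2 (by positivity)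
          _ = ‖σ‖ ^ m * ‖A σ‖ + ‖σ‖ ^ m * (c / ‖σ‖ ^ m) * ‖ν σ‖ := by ring
          _ ≤ 1 * M + c * MW := by
              apply add_le_add
              · exact mul_le_mul h1 (hM σ) (norm_nonneg _) zero_le_one
              · exact mul_le_mul h3 (hνb σ) (norm_nonneg _) hc.le
          _ = M + c * MW := by ring
      have h5 : 1 + ‖σ‖ ^ 2 ≤ 2 := by nlinarith [norm_nonneg σ]
      have h6 : ‖σ‖ ^ m * ‖D σ‖ * (1 + ‖σ‖ ^ 2) ≤ (M + c * MW) * 2 :=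
        mul_le_mul h4 h5 (by positivity) (by positivity)
      rw [hK3]
      nlinarith [abs_nonneg K]
  have hK30 : 0 ≤ K3 := by rw [hK3]; positivity
  refine ⟨(|C| * 2 + 12 * K3 * 2 ^ k) / (4 * Real.pi * c), k + 1, ?_⟩
  intro R hR
  have hR0 : 0 < R := by linarith
  have hl : 0 < 1 / (4 * R) := by positivity
  -- the three integrals
  have i1 : Integrable (fun σ : ℂ =>
      ((‖σ‖ ^ m * Real.exp (-(1 / (4 * R) * ‖σ‖ ^ 2)) : ℝ) : ℂ) * A σ) := by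
    have hi : Integrable (fun σ : ℂ => ‖σ‖ ^ m * Real.exp (-(1 / (4 * R) * ‖σ‖ ^ 2))) := by
      rcases hm with rfl | rfl
      · simpa using gau1 hl
      · exact (gau2 hl).1
    refine (hi.mul_const M).mono' ?_ (ae_of_all _ fun σ => ?_)
    · refine AEStronglyMeasurable.mul ?_ hA
      refine Continuous.aestronglyMeasurable ?_
      fun_prop
    · rw [norm_mul, Complex.norm_real, Real.norm_of_nonneg (by positivity)]
      exact mul_le_mul_of_nonneg_left (hM σ) (by positivity)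
  obtain ⟨j1, j2⟩ := jay' hR
  have b2 : ∀ σ : ℂ, ‖((‖σ‖ ^ m * Real.exp (-(1 / (4 * R) * ‖σ‖ ^ 2)) : ℝ) : ℂ) * D σ‖ ≤
      K3 * (Real.exp (-(1 / (4 * R) * ‖σ‖ ^ 2)) / (1 + ‖σ‖ ^ 2)) := by
    intro σ
    rw [norm_mul, Complex.norm_real, Real.norm_of_nonneg (by positivity)]
    calc ‖σ‖ ^ m * Real.exp (-(1 / (4 * R) * ‖σ‖ ^ 2)) * ‖D σ‖
        = Real.exp (-(1 / (4 * R) * ‖σ‖ ^ 2)) * (‖σ‖ ^ m * ‖D σ‖) := by ring
      _ ≤ Real.exp (-(1 / (4 * R) * ‖σ‖ ^ 2)) * (K3 / (1 + ‖σ‖ ^ 2)) :=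
          mul_le_mul_of_nonneg_left (hDb σ) (Real.exp_pos _).le
      _ = K3 * (Real.exp (-(1 / (4 * R) * ‖σ‖ ^ 2)) / (1 + ‖σ‖ ^ 2)) := by ring
  have i2 : Integrable (fun σ : ℂ =>
      ((‖σ‖ ^ m * Real.exp (-(1 / (4 * R) * ‖σ‖ ^ 2)) : ℝ) : ℂ) * D σ) := by
    refine (j1.const_mul K3).mono' ?_ (ae_of_all _ b2)
    refine AEStronglyMeasurable.mul ?_ hDm
    refine Continuous.aestronglyMeasurable ?_
    fun_prop
  have n2 : ‖∫ σ : ℂ, ((‖σ‖ ^ m * Real.exp (-(1 / (4 * R) * ‖σ‖ ^ 2)) : ℝ) : ℂ) * D σ‖ ≤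
      K3 * (12 * Real.log R) := by
    refine (norm_integral_le_of_norm_le (j1.const_mul K3) (ae_of_all _ b2)).trans ?_
    rw [integral_const_mul]
    exact mul_le_mul_of_nonneg_left j2 hK30
  have e3 : (∫ σ : ℂ, ((‖σ‖ ^ m * Real.exp (-(1 / (4 * R) * ‖σ‖ ^ 2)) : ℝ) : ℂ) * A σ) -
      (∫ σ : ℂ, ((‖σ‖ ^ m * Real.exp (-(1 / (4 * R) * ‖σ‖ ^ 2)) : ℝ) : ℂ) * D σ) =
      c * ∫ σ : ℂ, ((Real.exp (-(1 / (4 * R) * ‖σ‖ ^ 2)) : ℝ) : ℂ) * ν σ := by
    rw [← integral_sub i1 i2, ← integral_const_mul]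
    refine integral_congr_ae ?_
    have : ∀ᵐ σ : ℂ, σ ≠ 0 := by
      simp [ae_iff]
    filter_upwards [this] with σ hσ
    have h0 : ((‖σ‖ : ℝ) : ℂ) ^ m ≠ 0 := by
      apply pow_ne_zero
      exact_mod_cast (norm_pos_iff.2 hσ).ne'
    simp only [hDd]
    push_cast
    field_simp
    ring
  rw [hν] at e3
  rw [vform hG W h hW hWi hh hl] at e3
  have hX : ∀ z, W z * Real.exp (-(‖h z‖ ^ 2 / (4 * (1 / (4 * R))))) =
      W z * Real.exp (-(R * ‖h z‖ ^ 2)) := by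
    intro z
    congr 3
    field_simp
  simp only [hX] at e3
  set X : ℝ := ∫ z, W z * Real.exp (-(R * ‖h z‖ ^ 2)) with hXd
  have hX0 : 0 ≤ X := integral_nonneg fun z => mul_nonneg (hW z) (Real.exp_pos _).le
  have h5 : c * (4 * Real.pi * R * X) ≤ |C| * Real.log R ^ k + K3 * (12 * Real.log R) := by
    have h6 : ‖(c : ℂ) * ((Real.pi / (1 / (4 * R)) * X : ℝ) : ℂ)‖ =
        c * (4 * Real.pi * R * X) := by
      rw [← Complex.ofReal_mul, Complex.norm_real, Real.norm_of_nonneg (by positivity)]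
      field_simp
    rw [← h6, ← e3]
    refine (norm_sub_le _ _).trans (add_le_add ((hT R hR).trans ?_) n2)
    exact mul_le_mul_of_nonneg_right (le_abs_self C) (pow_nonneg (logpow hR 0).1.le _)
  obtain ⟨hL, hL1⟩ := logpow hR 1
  have hLk := (logpow hR k).2
  have h7 : Real.log R ^ k ≤ 2 * Real.log R ^ (k + 1) := by
    rw [pow_succ]
    rw [pow_one, pow_one] at hL1
    have : 0 < Real.log R ^ k := pow_pos hL k
    nlinarith
  have h8 : Real.log R ≤ 2 ^ k * Real.log R ^ (k + 1) := by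
    rw [pow_succ]
    nlinarith
  have h9 : c * (4 * Real.pi * R * X) ≤ (|C| * 2 + 12 * K3 * 2 ^ k) * Real.log R ^ (k + 1) := by
    have h10 : |C| * Real.log R ^ k ≤ |C| * (2 * Real.log R ^ (k + 1)) :=
      mul_le_mul_of_nonneg_left h7 (abs_nonneg C)
    have h11 : K3 * (12 * Real.log R) ≤ K3 * (12 * (2 ^ k * Real.log R ^ (k + 1))) :=
      mul_le_mul_of_nonneg_left (by linarith) hK30
    linarith
  have hpi := Real.pi_pos
  rw [le_div_iff₀ hR0, div_mul_eq_mul_div, le_div_iff₀ (by positivity)]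
  linarith

/-- the amplitude -/
def Amp (f : E → ℂ) (ψ : E → ℝ) (σ : ℂ) : ℂ := ∫ x, cexp (I * ((σ * f x).re : ℂ)) * ψ x

theorem Amp_meas (f : E → ℂ) (ψ : E → ℝ) (hf : Continuous f) (hψ : Continuous ψ) :
    AEStronglyMeasurable (Amp f ψ) volume := by
  have h1 : Continuous (fun p : ℂ × E => cexp (I * ((p.1 * f p.2).re : ℂ)) * ψ p.2) := by
    fun_prop
  exact (h1.aestronglyMeasurable (μ := (volume : Measure ℂ).prod (volume : Measure E))).integral_prod_right'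

theorem Amp_bd (f : E → ℂ) (ψ : E → ℝ) (σ : ℂ) : ‖Amp f ψ σ‖ ≤ ∫ x, |ψ x| := by
  refine (norm_integral_le_integral_norm _).trans (le_of_eq ?_)
  refine integral_congr_ae (ae_of_all _ fun z => ?_)
  simp only
  rw [norm_mul, hnorm, one_mul, Complex.norm_real, Real.norm_eq_abs]

/-- the second moment estimate -/
theorem second (hL : G_LINK) (f : E → ℂ) (hf : Continuous f) (ψ : E → ℝ) (hψ : Continuous ψ)
    (hψc : HasCompactSupport ψ) (C : ℝ) (k : ℕ)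
    (h : ∀ R : ℝ, 2 ≤ R → |∫ x, (R * ‖f x‖ ^ 2 - 1) * Real.exp (-(R * ‖f x‖ ^ 2)) * ψ x| ≤
      C * Real.log R ^ k / R ^ 2) (R : ℝ) (hR : 2 ≤ R) :
    ‖∫ σ : ℂ, ((‖σ‖ ^ 2 * Real.exp (-(1 / (4 * R) * ‖σ‖ ^ 2)) : ℝ) : ℂ) * Amp f ψ σ‖ ≤
      16 * Real.pi * C * Real.log R ^ k := by
  have hR0 : 0 < R := by linarith
  have h1 := hL f ψ hf hψ hψc R hR0
  have h2 : ∀ σ : ℂ, -‖σ‖ ^ 2 / (4 * R) = -(1 / (4 * R) * ‖σ‖ ^ 2) := by
    intro σ; ring
  simp only [h2] at h1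
  unfold Amp
  rw [h1, Complex.norm_real, Real.norm_eq_abs, abs_mul, abs_neg,
    abs_of_nonneg (by positivity : (0:ℝ) ≤ 16 * Real.pi * R ^ 2)]
  calc 16 * Real.pi * R ^ 2 *
        |∫ x, (R * ‖f x‖ ^ 2 - 1) * Real.exp (-(R * ‖f x‖ ^ 2)) * ψ x|
      ≤ 16 * Real.pi * R ^ 2 * (C * Real.log R ^ k / R ^ 2) :=
        mul_le_mul_of_nonneg_left (h R hR) (by positivity)
    _ = 16 * Real.pi * C * Real.log R ^ k := by field_simp

/-- the first moment estimate from the second one -/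
theorem first {A : ℂ → ℂ} {M : ℝ} (hA : AEStronglyMeasurable A volume) (hM : ∀ σ, ‖A σ‖ ≤ M)
    (C : ℝ) (k : ℕ) (hT : ∀ R : ℝ, 2 ≤ R → ‖∫ σ : ℂ,
      ((‖σ‖ ^ 2 * Real.exp (-(1 / (4 * R) * ‖σ‖ ^ 2)) : ℝ) : ℂ) * A σ‖ ≤ C * Real.log R ^ k)
    (R : ℝ) (hR : 2 ≤ R) :
    ‖∫ σ : ℂ, ((‖σ‖ ^ 1 * Real.exp (-(1 / (4 * R) * ‖σ‖ ^ 2)) : ℝ) : ℂ) * A σ‖ ≤
      Real.sqrt Real.pi * (2 * |C| + 324 * Real.pi * M * 2 ^ k) * Real.log R ^ k := by
  have hM0 : 0 ≤ M := (norm_nonneg _).trans (hM 0)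
  have hR0 : 0 < R := by linarith
  have hl : 0 < 1 / (4 * R) := by positivity
  have hs := subord hA hM hl
  obtain ⟨hLp, hLk⟩ := logpow hR k
  -- bound of the second moment for all parameters
  have hb : ∀ t : ℝ, ‖∫ σ : ℂ, ((‖σ‖ ^ 2 *
      Real.exp (-((1 / (4 * R) + t ^ 2) * ‖σ‖ ^ 2)) : ℝ) : ℂ) * A σ‖ ≤
      (2 * |C| + 324 * Real.pi * M * 2 ^ k) * Real.log R ^ k * (1 + t ^ 2)⁻¹ := by
    intro t
    set l : ℝ := 1 / (4 * R) + t ^ 2 with hld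
    have hl0 : 0 < l := by positivity
    rw [← div_eq_mul_inv, le_div_iff₀ (by positivity)]
    have hLk0 : 0 ≤ Real.log R ^ k := pow_nonneg hLp.le k
    have hA0 : 0 ≤ 2 * |C| * Real.log R ^ k := by positivity
    have hB0 : 0 ≤ 324 * Real.pi * M * 2 ^ k * Real.log R ^ k := by positivity
    by_cases h8 : l ≤ 1 / 8
    · have h9 : 2 ≤ 1 / (4 * l) := by
        rw [le_div_iff₀ (by positivity)]; linarith
      have h10 := hT (1 / (4 * l)) h9
      have h11 : 1 / (4 * (1 / (4 * l))) = l := by field_simp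
      rw [h11] at h10
      have h12 : Real.log (1 / (4 * l)) ≤ Real.log R := by
        apply Real.log_le_log (by positivity)
        rw [div_le_iff₀ (by positivity)]
        have : R * (4 * (1 / (4 * R))) = 1 := by field_simp
        nlinarith [sq_nonneg t]
      have h13 : 0 ≤ Real.log (1 / (4 * l)) := Real.log_nonneg (by linarith)
      have h14 : Real.log (1 / (4 * l)) ^ k ≤ Real.log R ^ k := pow_le_pow_left₀ h13 h12 k
      have h15 : C * Real.log (1 / (4 * l)) ^ k ≤ |C| * Real.log R ^ k :=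
        mul_le_mul (le_abs_self C) h14 (pow_nonneg h13 k) (abs_nonneg C)
      have h16 : 1 + t ^ 2 ≤ 2 := by
        have : t ^ 2 ≤ l := by rw [hld]; linarith
        linarith
      have h17 := mul_le_mul (h10.trans h15) h16 (by positivity) (by positivity)
      linarith
    · push Not at h8
      have h9 : ‖∫ σ : ℂ, ((‖σ‖ ^ 2 * Real.exp (-(l * ‖σ‖ ^ 2)) : ℝ) : ℂ) * A σ‖ ≤
          M * (4 * Real.pi / l ^ 2) := by
        refine (norm_integral_le_of_norm_le ((gau2 hl0).1.const_mul M)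
          (ae_of_all _ fun σ => ?_)).trans ?_
        · rw [norm_mul, Complex.norm_real, Real.norm_of_nonneg (by positivity), mul_comm]
          exact mul_le_mul_of_nonneg_right (hM σ) (by positivity)
        · rw [integral_const_mul]
          exact mul_le_mul_of_nonneg_left (gau2 hl0).2 hM0
      have h10 : t ^ 2 ≤ l := by rw [hld]; linarith
      have h11 : 1 + t ^ 2 ≤ 9 * l := by linarith
      have h12 : (1 + t ^ 2) ≤ 81 * l ^ 2 := by
        have : 1 + t ^ 2 ≤ (1 + t ^ 2) ^ 2 := by nlinarith [sq_nonneg t, sq_nonneg (t ^ 2)]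
        have h13 : (1 + t ^ 2) ^ 2 ≤ (9 * l) ^ 2 := pow_le_pow_left₀ (by positivity) h11 2
        nlinarith
      have h13 : M * (4 * Real.pi / l ^ 2) * (1 + t ^ 2) ≤ 324 * Real.pi * M := by
        calc M * (4 * Real.pi / l ^ 2) * (1 + t ^ 2)
            ≤ M * (4 * Real.pi / l ^ 2) * (81 * l ^ 2) :=
              mul_le_mul_of_nonneg_left h12 (by positivity)
          _ = 324 * Real.pi * M := by field_simp; ring
      have h14 : 324 * Real.pi * M ≤ 324 * Real.pi * M * (2 ^ k * Real.log R ^ k) :=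
        le_mul_of_one_le_right (by positivity) hLk
      have h15 := mul_le_mul_of_nonneg_right h9 (by positivity : (0:ℝ) ≤ 1 + t ^ 2)
      linarith
  have hI := norm_integral_le_of_norm_le (integrable_inv_one_add_sq.const_mul
    ((2 * |C| + 324 * Real.pi * M * 2 ^ k) * Real.log R ^ k)) (ae_of_all _ hb)
  rw [hs, integral_const_mul, integral_univ_inv_one_add_sq, norm_mul, Complex.norm_real,
    Real.norm_of_nonneg (Real.sqrt_nonneg _)] at hI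
  simp only [pow_one]
  have hpi : 0 < Real.sqrt Real.pi := Real.sqrt_pos.2 Real.pi_pos
  have hpp : Real.sqrt Real.pi * Real.sqrt Real.pi = Real.pi :=
    Real.mul_self_sqrt Real.pi_pos.le
  refine le_of_mul_le_mul_left (hI.trans (le_of_eq ?_)) hpi
  set B : ℝ := 2 * |C| + 324 * Real.pi * M * 2 ^ k
  calc B * Real.log R ^ k * Real.pi
      = B * Real.log R ^ k * (Real.sqrt Real.pi * Real.sqrt Real.pi) := by rw [hpp]
    _ = Real.sqrt Real.pi * (Real.sqrt Real.pi * B * Real.log R ^ k) := by ring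

theorem stmtKEY2 (hL : G_LINK) (hG : G_GAUSS) : G_KEY 2 := by
  intro f hf hgood
  obtain ⟨r, hr, H⟩ := hgood
  refine ⟨r, hr, ?_⟩
  intro ψ hψ hψc hψs W h hW hWi hh c K hc hD
  obtain ⟨C, k, HC⟩ := H ψ hψ hψc hψs
  refine fin 2 (Or.inr rfl) hG (Amp_meas f ψ hf hψ.continuous) (Amp_bd f ψ) W h hW hWi hh c K hc
    hD (16 * Real.pi * C) k ?_
  exact second hL f hf ψ hψ.continuous hψc C k fun R hR => (HC R hR).2

theorem stmtKEY1 (hL : G_LINK) (hG : G_GAUSS) : G_KEY 1 := by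
  intro f hf hgood
  obtain ⟨r, hr, H⟩ := hgood
  refine ⟨r, hr, ?_⟩
  intro ψ hψ hψc hψs W h hW hWi hh c K hc hD
  obtain ⟨C, k, HC⟩ := H ψ hψ hψc hψs
  refine fin 1 (Or.inl rfl) hG (Amp_meas f ψ hf hψ.continuous) (Amp_bd f ψ) W h hW hWi hh c K hc
    hD _ k (first (Amp_meas f ψ hf hψ.continuous) (Amp_bd f ψ) (16 * Real.pi * C) k ?_)
  exact second hL f hf ψ hψ.continuous hψc C k fun R hR => (HC R hR).2

end Pool.Agent.Helper77.CF
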