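import Pool.Agent.Helper55.CF.Goals

open MeasureTheory Complex Filter
open scoped ContDiff ComplexConjugate Topology

noncomputable section
namespace Pool.Agent.Helper77.CF

/-- the Gaussian -/
theorem gau {l : ℝ} (hl : 0 < l) :
    Integrable (fun σ : ℂ => Real.exp (-(l * ‖σ‖ ^ 2))) ∧
    ∫ σ : ℂ, Real.exp (-(l * ‖σ‖ ^ 2)) = Real.pi / l := by
  have h2 : ∫ σ : ℂ, Real.exp (-(l * ‖σ‖ ^ 2)) = Real.pi / l := by
    have := GaussianFourier.integral_rexp_neg_mul_sq_norm (V := ℂ) hl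
    simp only [neg_mul] at this
    rw [this, Complex.finrank_real_complex]
    norm_num
  refine ⟨?_, h2⟩
  by_contra h
  rw [integral_undef h] at h2
  have : 0 < Real.pi / l := by positivity
  linarith

theorem gau2 {l : ℝ} (hl : 0 < l) :
    Integrable (fun σ : ℂ => ‖σ‖ ^ 2 * Real.exp (-(l * ‖σ‖ ^ 2))) ∧
    ∫ σ : ℂ, ‖σ‖ ^ 2 * Real.exp (-(l * ‖σ‖ ^ 2)) ≤ 4 * Real.pi / l ^ 2 := by
  have hb : ∀ σ : ℂ, ‖σ‖ ^ 2 * Real.exp (-(l * ‖σ‖ ^ 2)) ≤
      2 / l * Real.exp (-(l / 2 * ‖σ‖ ^ 2)) := by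
    intro σ
    have h1 : l / 2 * ‖σ‖ ^ 2 ≤ Real.exp (l / 2 * ‖σ‖ ^ 2) := by
      have := Real.add_one_le_exp (l / 2 * ‖σ‖ ^ 2); linarith
    have h2 : Real.exp (-(l * ‖σ‖ ^ 2)) =
        Real.exp (-(l / 2 * ‖σ‖ ^ 2)) * Real.exp (-(l / 2 * ‖σ‖ ^ 2)) := by
      rw [← Real.exp_add]; ring_nf
    have h3 : l / 2 * ‖σ‖ ^ 2 * Real.exp (-(l / 2 * ‖σ‖ ^ 2)) ≤ 1 := by
      calc l / 2 * ‖σ‖ ^ 2 * Real.exp (-(l / 2 * ‖σ‖ ^ 2))
          ≤ Real.exp (l / 2 * ‖σ‖ ^ 2) * Real.exp (-(l / 2 * ‖σ‖ ^ 2)) :=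
            mul_le_mul_of_nonneg_right h1 (Real.exp_pos _).le
        _ = 1 := by rw [← Real.exp_add]; simp
    have h4 : ‖σ‖ ^ 2 * Real.exp (-(l / 2 * ‖σ‖ ^ 2)) ≤ 2 / l := by
      rw [le_div_iff₀ hl]; nlinarith
    rw [h2, ← mul_assoc]
    exact mul_le_mul_of_nonneg_right h4 (Real.exp_pos _).le
  have hl2 : 0 < l / 2 := by linarith
  have hi : Integrable (fun σ : ℂ => 2 / l * Real.exp (-(l / 2 * ‖σ‖ ^ 2))) :=
    (gau hl2).1.const_mul _
  have hI : Integrable (fun σ : ℂ => ‖σ‖ ^ 2 * Real.exp (-(l * ‖σ‖ ^ 2))) := by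
    refine hi.mono' (by fun_prop) (ae_of_all _ fun σ => ?_)
    rw [Real.norm_of_nonneg (by positivity)]
    exact hb σ
  refine ⟨hI, ?_⟩
  calc ∫ σ : ℂ, ‖σ‖ ^ 2 * Real.exp (-(l * ‖σ‖ ^ 2))
      ≤ ∫ σ : ℂ, 2 / l * Real.exp (-(l / 2 * ‖σ‖ ^ 2)) := integral_mono hI hi hb
    _ = 4 * Real.pi / l ^ 2 := by
        rw [integral_const_mul, (gau hl2).2]; field_simp; norm_num

theorem gau1 {l : ℝ} (hl : 0 < l) :
    Integrable (fun σ : ℂ => ‖σ‖ * Real.exp (-(l * ‖σ‖ ^ 2))) := by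
  have hi := (gau hl).1.add (gau2 hl).1
  refine hi.mono' (by fun_prop) (ae_of_all _ fun σ => ?_)
  rw [Real.norm_of_nonneg (by positivity)]
  show _ ≤ Real.exp (-(l * ‖σ‖ ^ 2)) + ‖σ‖ ^ 2 * Real.exp (-(l * ‖σ‖ ^ 2))
  have : 0 < Real.exp (-(l * ‖σ‖ ^ 2)) := Real.exp_pos _
  nlinarith [sq_nonneg (‖σ‖ - 1), norm_nonneg σ]

theorem jay {a : ℝ} (ha : 0 < a) (ha' : a ≤ 1 / 8) :
    Integrable (fun σ : ℂ => 1 / ((1 + ‖σ‖ ^ 2) * (1 + a * ‖σ‖ ^ 2))) ∧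
    ∫ σ : ℂ, 1 / ((1 + ‖σ‖ ^ 2) * (1 + a * ‖σ‖ ^ 2)) = Real.pi / (1 - a) * (-Real.log a) := by
  set g : ℝ → ℝ := fun y => 1 / ((1 + y ^ 2) * (1 + a * y ^ 2)) with hg
  set F : ℝ → ℝ := fun y => (1 / (2 * (1 - a))) *
    (Real.log (1 + y ^ 2) - Real.log (1 + a * y ^ 2)) with hF
  have h1a : 0 < 1 - a := by linarith
  have hd : ∀ y ∈ Set.Ici (0:ℝ), HasDerivAt F (y ^ (Module.finrank ℝ ℂ - 1) • g y) y := by
    intro y _
    have p1 : 0 < 1 + y ^ 2 := by positivity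
    have p2 : 0 < 1 + a * y ^ 2 := by positivity
    have d1 : HasDerivAt (fun y : ℝ => 1 + y ^ 2) (2 * y) y := by
      simpa using ((hasDerivAt_pow 2 y).const_add 1)
    have d2 : HasDerivAt (fun y : ℝ => 1 + a * y ^ 2) (a * (2 * y)) y := by
      simpa using (((hasDerivAt_pow 2 y).const_mul a).const_add 1)
    have d3 := ((d1.log p1.ne').sub (d2.log p2.ne')).const_mul (1 / (2 * (1 - a)))
    convert! d3 using 1
    rw [Complex.finrank_real_complex]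
    simp only [hg, smul_eq_mul]
    field_simp
    ring
  have hpos : ∀ y ∈ Set.Ioi (0:ℝ), 0 ≤ y ^ (Module.finrank ℝ ℂ - 1) • g y := by
    intro y hy
    have : 0 < y := hy
    simp only [hg, smul_eq_mul]
    positivity
  have hlim : Tendsto F atTop (𝓝 (1 / (2 * (1 - a)) * (-Real.log a))) := by
    have h1 : Tendsto (fun y : ℝ => 1 + a * y ^ 2) atTop atTop := by
      refine tendsto_atTop_add_const_left _ _ ?_
      exact (tendsto_pow_atTop (two_ne_zero)).const_mul_atTop ha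
    have h2 : Tendsto (fun y : ℝ => 1 / a + (1 - 1 / a) * (1 + a * y ^ 2)⁻¹) atTop
        (𝓝 (1 / a + (1 - 1 / a) * 0)) :=
      tendsto_const_nhds.add (tendsto_const_nhds.mul h1.inv_tendsto_atTop)
    rw [mul_zero, add_zero] at h2
    have h3 := (Real.continuousAt_log (x := 1 / a) (by positivity)).tendsto.comp h2
    have h4 : Real.log (1 / a) = -Real.log a := by rw [one_div, Real.log_inv]
    rw [h4] at h3
    refine Tendsto.const_mul _ (h3.congr fun y => ?_)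
    have p1 : 0 < 1 + y ^ 2 := by positivity
    have p2 : 0 < 1 + a * y ^ 2 := by positivity
    rw [← Real.log_div p1.ne' p2.ne']
    simp only [Function.comp]
    congr 1
    field_simp
    ring
  refine ⟨?_, ?_⟩
  · exact (integrable_fun_norm_addHaar (volume : Measure ℂ) (f := g)).2
      (integrableOn_Ioi_deriv_of_nonneg' hd hpos hlim)
  · have h1 := integral_fun_norm_addHaar (volume : Measure ℂ) g
    have h2 := integral_Ioi_of_hasDerivAt_of_nonneg' hd hpos hlim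
    rw [h2] at h1
    have h3 : (volume : Measure ℂ).real (Metric.ball 0 1) = Real.pi := by
      rw [Measure.real, Complex.volume_ball]; simp
    rw [h3, Complex.finrank_real_complex] at h1
    refine h1.trans ?_
    simp only [hF, nsmul_eq_mul, smul_eq_mul]
    norm_num
    field_simp

/-- the logarithmic integral -/
theorem jay' {R : ℝ} (hR : 2 ≤ R) :
    Integrable (fun σ : ℂ => Real.exp (-(1 / (4 * R) * ‖σ‖ ^ 2)) / (1 + ‖σ‖ ^ 2)) ∧
    ∫ σ : ℂ, Real.exp (-(1 / (4 * R) * ‖σ‖ ^ 2)) / (1 + ‖σ‖ ^ 2) ≤ 12 * Real.log R := by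
  have hR0 : 0 < R := by linarith
  have ha : 0 < 1 / (4 * R) := by positivity
  have ha' : 1 / (4 * R) ≤ 1 / 8 := by
    apply one_div_le_one_div_of_le <;> linarith
  obtain ⟨h1, h2⟩ := jay ha ha'
  have hb : ∀ σ : ℂ, Real.exp (-(1 / (4 * R) * ‖σ‖ ^ 2)) / (1 + ‖σ‖ ^ 2) ≤
      1 / ((1 + ‖σ‖ ^ 2) * (1 + 1 / (4 * R) * ‖σ‖ ^ 2)) := by
    intro σ
    have p1 : 0 < 1 + ‖σ‖ ^ 2 := by positivity
    have p2 : 0 < 1 + 1 / (4 * R) * ‖σ‖ ^ 2 := by positivity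
    have h3 : Real.exp (-(1 / (4 * R) * ‖σ‖ ^ 2)) ≤ 1 / (1 + 1 / (4 * R) * ‖σ‖ ^ 2) := by
      rw [Real.exp_neg, ← one_div]
      apply one_div_le_one_div_of_le p2
      have := Real.add_one_le_exp (1 / (4 * R) * ‖σ‖ ^ 2); linarith
    have h4 := div_le_div_of_nonneg_right h3 p1.le
    rw [div_div, mul_comm (1 + 1 / (4 * R) * ‖σ‖ ^ 2)] at h4
    exact h4
  have hI : Integrable (fun σ : ℂ => Real.exp (-(1 / (4 * R) * ‖σ‖ ^ 2)) / (1 + ‖σ‖ ^ 2)) := by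
    refine h1.mono' ?_ (ae_of_all _ fun σ => ?_)
    · refine Continuous.aestronglyMeasurable ?_
      refine Continuous.div (by fun_prop) (by fun_prop) fun σ => ?_
      positivity
    · rw [Real.norm_of_nonneg (by positivity)]
      exact hb σ
  refine ⟨hI, (integral_mono hI h1 hb).trans ?_⟩
  rw [h2]
  have h4 : -Real.log (1 / (4 * R)) ≤ 3 * Real.log R := by
    rw [one_div, Real.log_inv, neg_neg, Real.log_mul (by norm_num) hR0.ne']
    have h5 : Real.log 4 = 2 * Real.log 2 := by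
      rw [show (4:ℝ) = 2 ^ 2 by norm_num, Real.log_pow]; norm_num
    have h6 : Real.log 2 ≤ Real.log R := Real.log_le_log (by norm_num) hR
    linarith
  have h7 : 0 ≤ -Real.log (1 / (4 * R)) := by
    rw [neg_nonneg]
    apply Real.log_nonpos ha.le; linarith
  have h8 : Real.pi / (1 - 1 / (4 * R)) ≤ 4 := by
    have h81 : 7 / 8 ≤ 1 - 1 / (4 * R) := by linarith
    rw [div_le_iff₀ (by linarith)]
    have := Real.pi_lt_d2
    linarith
  calc Real.pi / (1 - 1 / (4 * R)) * -Real.log (1 / (4 * R))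
      ≤ 4 * (3 * Real.log R) := mul_le_mul h8 h4 h7 (by norm_num)
    _ = 12 * Real.log R := by ring

/-- subordination -/
theorem subord {A : ℂ → ℂ} {M : ℝ} (hA : AEStronglyMeasurable A volume) (hM : ∀ σ, ‖A σ‖ ≤ M)
    {l : ℝ} (hl : 0 < l) :
    ∫ t : ℝ, ∫ σ : ℂ, ((‖σ‖ ^ 2 * Real.exp (-((l + t ^ 2) * ‖σ‖ ^ 2)) : ℝ) : ℂ) * A σ =
      (Real.sqrt Real.pi : ℂ) * ∫ σ : ℂ, ((‖σ‖ * Real.exp (-(l * ‖σ‖ ^ 2)) : ℝ) : ℂ) * A σ := by
  have e1 : ∀ (σ : ℂ) (t : ℝ), ‖σ‖ ^ 2 * Real.exp (-((l + t ^ 2) * ‖σ‖ ^ 2)) =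
      ‖σ‖ ^ 2 * Real.exp (-(l * ‖σ‖ ^ 2)) * Real.exp (-(‖σ‖ ^ 2) * t ^ 2) := by
    intro σ t
    rw [mul_assoc, ← Real.exp_add]; ring_nf
  have i1 : ∀ σ : ℂ, Integrable
      (fun t : ℝ => ‖σ‖ ^ 2 * Real.exp (-((l + t ^ 2) * ‖σ‖ ^ 2))) := by
    intro σ
    by_cases hσ : σ = 0
    · subst hσ; simp
    · simp only [e1]
      have : 0 < ‖σ‖ ^ 2 := by positivity
      exact (integrable_exp_neg_mul_sq this).const_mul _
  have i2 : ∀ σ : ℂ, ∫ t : ℝ, ‖σ‖ ^ 2 * Real.exp (-((l + t ^ 2) * ‖σ‖ ^ 2)) =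
      Real.sqrt Real.pi * (‖σ‖ * Real.exp (-(l * ‖σ‖ ^ 2))) := by
    intro σ
    by_cases hσ : σ = 0
    · subst hσ; simp
    · simp only [e1]
      have h0 : 0 < ‖σ‖ := norm_pos_iff.2 hσ
      rw [integral_const_mul, integral_gaussian, Real.sqrt_div Real.pi_pos.le,
        Real.sqrt_sq h0.le]
      field_simp
  have hint : Integrable (Function.uncurry fun (t : ℝ) (σ : ℂ) =>
      ((‖σ‖ ^ 2 * Real.exp (-((l + t ^ 2) * ‖σ‖ ^ 2)) : ℝ) : ℂ) * A σ)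
      ((volume : Measure ℝ).prod (volume : Measure ℂ)) := by
    have hr : Integrable (fun p : ℝ × ℂ => ‖p.2‖ ^ 2 * Real.exp (-((l + p.1 ^ 2) * ‖p.2‖ ^ 2)))
        ((volume : Measure ℝ).prod (volume : Measure ℂ)) := by
      rw [integrable_prod_iff' (by fun_prop)]
      refine ⟨ae_of_all _ fun σ => i1 σ, ?_⟩
      have : (fun σ : ℂ => ∫ t : ℝ, ‖‖σ‖ ^ 2 * Real.exp (-((l + t ^ 2) * ‖σ‖ ^ 2))‖) =
          fun σ : ℂ => Real.sqrt Real.pi * (‖σ‖ * Real.exp (-(l * ‖σ‖ ^ 2))) := by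
        funext σ
        rw [← i2 σ]
        refine integral_congr_ae (ae_of_all _ fun t => ?_)
        exact Real.norm_of_nonneg (by positivity)
      show Integrable (fun σ : ℂ => ∫ t : ℝ, ‖‖σ‖ ^ 2 * Real.exp (-((l + t ^ 2) * ‖σ‖ ^ 2))‖) _
      rw [this]
      exact (gau1 hl).const_mul _
    refine (hr.mul_const M).mono' ?_ (ae_of_all _ fun p => ?_)
    · refine AEStronglyMeasurable.mul ?_ hA.comp_snd
      refine Continuous.aestronglyMeasurable ?_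
      fun_prop
    · simp only [Function.uncurry]
      rw [norm_mul, Complex.norm_real, Real.norm_of_nonneg (by positivity)]
      exact mul_le_mul_of_nonneg_left (hM p.2) (by positivity)
  rw [integral_integral_swap hint, ← integral_const_mul]
  refine integral_congr_ae (ae_of_all _ fun σ => ?_)
  simp only
  rw [integral_mul_const, integral_complex_ofReal, i2 σ]
  push_cast
  ring

/-- the Fourier formula for the positive measure -/
theorem vform (hG : CF55.G_GAUSS) (W : CF55.Z → ℝ) (h : CF55.Z → ℂ) (hW : ∀ z, 0 ≤ W z)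
    (hWi : Integrable W) (hh : Measurable h) {l : ℝ} (hl : 0 < l) :
    ∫ σ : ℂ, ((Real.exp (-(l * ‖σ‖ ^ 2)) : ℝ) : ℂ) * ∫ z, cexp (I * ((σ * h z).re : ℂ)) * W z =
      ((Real.pi / l * ∫ z, W z * Real.exp (-(‖h z‖ ^ 2 / (4 * l))) : ℝ) : ℂ) := by
  have hnorm : ∀ (σ : ℂ) (w : ℂ), ‖cexp (I * ((σ * w).re : ℂ))‖ = 1 := by
    intro σ w
    rw [mul_comm, Complex.norm_exp_ofReal_mul_I]
  have hint : Integrable (Function.uncurry fun (σ : ℂ) (z : CF55.Z) =>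
      ((Real.exp (-(l * ‖σ‖ ^ 2)) : ℝ) : ℂ) * (cexp (I * ((σ * h z).re : ℂ)) * W z))
      ((volume : Measure ℂ).prod (volume : Measure CF55.Z)) := by
    refine ((gau hl).1.mul_prod hWi).mono' ?_ (ae_of_all _ fun p => ?_)
    · have m1 : Measurable (fun p : ℂ × CF55.Z => ((Real.exp (-(l * ‖p.1‖ ^ 2)) : ℝ) : ℂ)) := by
        fun_prop
      have m2 : Measurable (fun p : ℂ × CF55.Z => cexp (I * ((p.1 * h p.2).re : ℂ))) := by
        fun_prop
      have m3 : AEStronglyMeasurable (fun p : ℂ × CF55.Z => ((W p.2 : ℝ) : ℂ))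
          ((volume : Measure ℂ).prod (volume : Measure CF55.Z)) :=
        Complex.continuous_ofReal.comp_aestronglyMeasurable hWi.aestronglyMeasurable.comp_snd
      exact m1.aestronglyMeasurable.mul (m2.aestronglyMeasurable.mul m3)
    · simp only [Function.uncurry]
      rw [norm_mul, norm_mul, hnorm, one_mul, Complex.norm_real, Complex.norm_real,
        Real.norm_of_nonneg (Real.exp_pos _).le, Real.norm_of_nonneg (hW _)]
  have e1 : ∀ σ : ℂ, ((Real.exp (-(l * ‖σ‖ ^ 2)) : ℝ) : ℂ) *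
      ∫ z, cexp (I * ((σ * h z).re : ℂ)) * W z =
      ∫ z, ((Real.exp (-(l * ‖σ‖ ^ 2)) : ℝ) : ℂ) * (cexp (I * ((σ * h z).re : ℂ)) * W z) := by
    intro σ; rw [integral_const_mul]
  simp only [e1]
  rw [integral_integral_swap hint]
  have e2 : ∀ z, ∫ σ : ℂ, ((Real.exp (-(l * ‖σ‖ ^ 2)) : ℝ) : ℂ) *
      (cexp (I * ((σ * h z).re : ℂ)) * W z) =
      ((Real.pi / l * (W z * Real.exp (-(‖h z‖ ^ 2 / (4 * l)))) : ℝ) : ℂ) := by
    intro z
    have h1 := (hG 0 (h z / 2) l hl).2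
    have h2 : ∀ σ : ℂ, ((Real.exp (-(l * ‖σ‖ ^ 2)) : ℝ) : ℂ) *
        (cexp (I * ((σ * h z).re : ℂ)) * W z) =
        cexp (I * (((0 : ℂ) * σ ^ 2 + 2 * (h z / 2) * σ).re : ℂ) - l * ‖σ‖ ^ 2) * W z := by
      intro σ
      rw [Complex.ofReal_exp, ← mul_assoc, ← Complex.exp_add]
      congr 2
      have : (0 : ℂ) * σ ^ 2 + 2 * (h z / 2) * σ = σ * h z := by ring
      rw [this]
      push_cast
      ring
    simp only [h2]
    rw [integral_mul_const, h1]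
    have h3 : Real.sqrt (l ^ 2 + ‖(0:ℂ)‖ ^ 2) = l := by
      rw [norm_zero]; simp [Real.sqrt_sq hl.le]
    rw [h3]
    have h4 : (-((l * ‖h z / 2‖ ^ 2 : ℝ) + I * ((conj (0:ℂ) * (h z / 2) ^ 2).re : ℂ)) /
        ((l ^ 2 + ‖(0:ℂ)‖ ^ 2 : ℝ) : ℂ)) = ((-(‖h z‖ ^ 2 / (4 * l)) : ℝ) : ℂ) := by
      have h5 : ‖h z / 2‖ = ‖h z‖ / 2 := by rw [norm_div]; simp
      rw [h5, norm_zero, map_zero, zero_mul]
      have hl' : (l : ℂ) ≠ 0 := by exact_mod_cast hl.ne'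
      push_cast
      simp
      field_simp
      ring
    rw [h4]
    push_cast
    ring
  simp only [e2]
  rw [integral_complex_ofReal, integral_const_mul]

end Pool.Agent.Helper77.CF
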